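import Pool.Agent.Q110.RK.Stm

/-!
# Project RK (helper110), job CNT (helper214): the number of the vectors with `qu = 1`
-/

set_option autoImplicit false

namespace Pool.Agent.Q214.RK

open Finset Pool.Agent.Q110.RK

/-- the sign -/
def chi (a : ZMod 2) : ℤ := 1 - 2 * (if a = 1 then 1 else 0)

lemma chi_add (a b : ZMod 2) : chi (a + b) = chi a * chi b := by
  revert a b
  decide

lemma chi_zero : chi 0 = 1 := by decide

lemma chi_sum {ι : Type} (s : Finset ι) (f : ι → ZMod 2) : chi (∑ i ∈ s, f i) = ∏ i ∈ s, chi (f i) := by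
  classical
  induction s using Finset.induction_on with
  | empty => exact chi_zero
  | insert a s ha ih => rw [Finset.sum_insert ha, Finset.prod_insert ha, chi_add, ih]

/-- the summands of `qu` -/
def gg {m : ℕ} (i : Fin (m + 1)) (p : ZMod 2 × ZMod 2) : ZMod 2 :=
  p.1 * p.2 + if i = 0 then p.1 + p.2 else 0

lemma qu_eq {m : ℕ} (v : Vec (m + 1)) : qu v = ∑ i, gg i (v i) := by
  unfold qu gg
  rw [Finset.sum_add_distrib, Finset.sum_ite_eq' Finset.univ (0 : Fin (m + 1)) fun i => (v i).1 + (v i).2]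
  simp

lemma sum_chi (m : ℕ) : ∑ v : Vec (m + 1), chi (qu v) = -2 * 2 ^ m := by
  have h1 : ∀ v : Vec (m + 1), chi (qu v) = ∏ i, chi (gg i (v i)) := fun v => by
    rw [qu_eq, chi_sum]
  simp only [h1]
  have h2 := Finset.prod_univ_sum (fun _ : Fin (m + 1) => (Finset.univ : Finset (ZMod 2 × ZMod 2)))
    (fun i p => chi (gg i p))
  rw [Fintype.piFinset_univ] at h2
  rw [← h2, Fin.prod_univ_succ]
  have h3 : ∑ p : ZMod 2 × ZMod 2, chi (gg (0 : Fin (m + 1)) p) = -2 := by
    have : ∀ p : ZMod 2 × ZMod 2, gg (0 : Fin (m + 1)) p = p.1 * p.2 + (p.1 + p.2) := fun p => by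
      unfold gg
      rw [if_pos rfl]
    simp only [this]
    decide
  have h4 : ∀ i : Fin m, ∑ p : ZMod 2 × ZMod 2, chi (gg i.succ p) = 2 := by
    intro i
    have : ∀ p : ZMod 2 × ZMod 2, gg i.succ p = p.1 * p.2 := fun p => by
      unfold gg
      rw [if_neg (Fin.succ_ne_zero i), add_zero]
    simp only [this]
    decide
  rw [h3, Finset.prod_congr rfl fun i _ => h4 i, Finset.prod_const, Finset.card_univ, Fintype.card_fin]

theorem card_qu : S_card_qu := by
  intro m
  have h1 := sum_chi m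
  unfold chi at h1
  rw [Finset.sum_sub_distrib, ← Finset.mul_sum, Finset.sum_boole, Finset.sum_const, Finset.card_univ, card_Vec,
    nsmul_eq_mul, mul_one] at h1
  have h2 : (2 : ℤ) * ((#(univ.filter fun v : Vec (m + 1) => qu v = 1) : ℕ) : ℤ) =
      2 * ((2 ^ m * (2 ^ (m + 1) + 1) : ℕ) : ℤ) := by
    push_cast at h1 ⊢
    have h3 : (4 : ℤ) ^ (m + 1) = 2 * 2 ^ m * 2 ^ (m + 1) := by
      rw [show (4 : ℤ) = 2 * 2 by norm_num, mul_pow, pow_succ]
      ring
    linarith
  have h3 := mul_left_cancel₀ (two_ne_zero) h2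
  exact_mod_cast h3

end Pool.Agent.Q214.RK
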