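import Pool.Agent.Q110.RK.Stm

/-!
# Project RK (helper110), job ISO (helper214): isotropic subspaces and sets
-/

set_option autoImplicit false

namespace Pool.Agent.Q214.RK

open Finset Module Pool.Agent.Q110.RK

theorem iso_finrank : S_iso_finrank := by
  intro m U h
  have h1 : U ≤ (omB m).orthogonal U := by
    intro w hw
    rw [mem_orthogonal]
    intro u hu
    exact h u hu w hw
  have h2 := Submodule.finrank_mono h1
  rw [finrank_orthogonal] at h2
  omega

theorem iso_span : S_iso_span := by
  intro m S h u hu w hw
  induction hu using Submodule.span_induction with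
  | mem x hx =>
    induction hw using Submodule.span_induction with
    | mem y hy => exact h x hx y hy
    | zero => exact om_zero_right x
    | add y z _ _ hy hz => rw [om_add_right, hy, hz, add_zero]
    | smul c y _ hy => rw [om_smul_right, hy, mul_zero]
  | zero => exact om_zero_left w
  | add y z _ _ hy hz => rw [om_add_left, hy, hz, add_zero]
  | smul c y _ hy => rw [om_smul_left, hy, mul_zero]

/-- a finite set inside an isotropic subspace -/
lemma card_le {m : ℕ} (U : Submodule (ZMod 2) (Vec m)) (h : ∀ u ∈ U, ∀ w ∈ U, om u w = 0)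
    (S : Finset (Vec m)) (hS : ∀ v ∈ S, v ∈ U) : #S ≤ 2 ^ m := by
  have h1 : #S ≤ Nat.card U := by
    rw [← SetLike.coe_sort_coe, Nat.card_coe_set_eq, ← Set.ncard_coe_finset]
    exact Set.ncard_le_ncard hS (Set.toFinite _)
  rw [card_submodule] at h1
  exact h1.trans (Nat.pow_le_pow_right (by norm_num) (iso_finrank m U h))

theorem iso_card : S_iso_card := by
  intro m S h
  have h1 := iso_span m (S : Set (Vec m)) h
  refine ⟨card_le _ h1 S fun v hv => Submodule.subset_span hv, fun h0 => ?_⟩
  have h2 := card_le _ h1 (insert 0 S) fun v hv => by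
    rcases Finset.mem_insert.1 hv with rfl | hv
    · exact zero_mem _
    · exact Submodule.subset_span hv
  rw [Finset.card_insert_of_notMem h0] at h2
  omega

theorem iso_qu : S_iso_qu := by
  intro m S h hq
  rcases S.eq_empty_or_nonempty with rfl | ⟨w₀, hw₀⟩
  · rw [Finset.card_empty]
    exact Nat.zero_le _
  have h1 := iso_span (m + 1) (S : Set (Vec (m + 1))) h
  let S' : Finset (Vec (m + 1)) := S.image fun v => v + w₀
  have hS' : #S' = #S := Finset.card_image_of_injective _ (add_left_injective w₀)
  have hdis : Disjoint S S' := by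
    rw [Finset.disjoint_left]
    intro v hv hv'
    obtain ⟨u, hu, rfl⟩ := Finset.mem_image.1 hv'
    have h2 := hq _ hv
    rw [qu_add, hq u hu, hq w₀ hw₀, h u hu w₀ hw₀] at h2
    exact absurd h2 (by decide)
  have h2 := card_le _ h1 (S ∪ S') fun v hv => by
    rcases Finset.mem_union.1 hv with hv | hv
    · exact Submodule.subset_span hv
    · obtain ⟨u, hu, rfl⟩ := Finset.mem_image.1 hv
      exact add_mem (Submodule.subset_span hu) (Submodule.subset_span hw₀)
  rw [Finset.card_union_of_disjoint hdis, hS', pow_succ] at h2
  omega

end Pool.Agent.Q214.RK
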